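import Pool.Agent.Lib_MP_badb58_ins.Core

/-!
# MP_badb58_gt: consonance is not inherited by the Smyth power space

There is a countable compact sober T1 space which is consonant although its Smyth power space is not.
The space is the union of two open Hausdorff subspaces (each of them leaves out one point), and all
its points except one have a countable base of neighbourhoods.
-/

set_option autoImplicit false

namespace Pool.Agent.Results.MP_badb58_gt.CompactSoberExample

open Pool.Agent.Lib_MP_badb58_ins

theorem result : ∃ (X : Type) (_ : TopologicalSpace X),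
    Countable X ∧ CompactSpace X ∧ T1Space X ∧ QuasiSober X ∧
    (∃ a b : X, a ≠ b ∧ T2Space ({a}ᶜ : Set X) ∧ T2Space ({b}ᶜ : Set X) ∧
      ∀ x : X, x ≠ b → (nhds x).IsCountablyGenerated) ∧
    Consonant X ∧ ¬ Consonant (Smyth X) :=
  ⟨Pt, inferInstance, countable_Pt, compactSpace_Pt, inferInstance, sober_Pt,
    ⟨Pt.a, Pt.b, by simp, t2_a, t2_b, nhds_countable⟩, consonant_Pt, not_consonant_Smyth⟩

end Pool.Agent.Results.MP_badb58_gt.CompactSoberExample
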